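import Pool.Agent.R684.VG.Stm

/-!
Derivations of `BS(1,2) * ℤ` into permutation modules (helper209).
-/

set_option autoImplicit false

namespace Pool.Agent.R209.VG

open Pool.Agent.R684.VG Pool.Agent.H919R3.Grp

section

variable {G : Type} [Group G] {H : Subgroup G}

/-- the action on the functions -/
def rho (g : G) : ((G ⧸ H) → ℂ) →ₗ[ℂ] ((G ⧸ H) → ℂ) where
  toFun u := fun x => u (g⁻¹ • x)
  map_add' _ _ := rfl
  map_smul' _ _ := rfl

theorem rho_mul (g h : G) (u : (G ⧸ H) → ℂ) : rho (g * h) u = rho g (rho h u) := by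
  funext x
  change u ((g * h)⁻¹ • x) = u (h⁻¹ • g⁻¹ • x)
  rw [mul_inv_rev, mul_smul]

theorem rho_one (u : (G ⧸ H) → ℂ) : rho (1 : G) u = u := by
  funext x
  change u ((1 : G)⁻¹ • x) = u x
  rw [inv_one, one_smul]

theorem rho_inv_rho (g : G) (u : (G ⧸ H) → ℂ) : rho g⁻¹ (rho g u) = u := by
  rw [← rho_mul, inv_mul_cancel, rho_one]

theorem rho_rho_inv (g : G) (u : (G ⧸ H) → ℂ) : rho g (rho g⁻¹ u) = u := by
  rw [← rho_mul, mul_inv_cancel, rho_one]

theorem mem_Zp {c : G → (G ⧸ H) → ℂ} :
    c ∈ Zp G H ↔ ∀ g h : G, c (g * h) = c g + rho g (c h) := by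
  constructor
  · intro hc g h
    funext x
    exact hc g h x
  · intro hc g h x
    rw [hc g h]
    rfl

theorem rho_congr {g h : G} (hgh : MulAction.toPermHom G (G ⧸ H) g =
    MulAction.toPermHom G (G ⧸ H) h) (u : (G ⧸ H) → ℂ) : rho g u = rho h u := by
  funext x
  change u (g⁻¹ • x) = u (h⁻¹ • x)
  have h1 : MulAction.toPermHom G (G ⧸ H) g⁻¹ = MulAction.toPermHom G (G ⧸ H) h⁻¹ := by
    rw [map_inv, map_inv, hgh]
  have h2 : g⁻¹ • x = h⁻¹ • x := congrArg (fun p : Equiv.Perm (G ⧸ H) => p x) h1
  rw [h2]

/-- affine permutations of the functions -/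
def aff (g : G) (α : (G ⧸ H) → ℂ) : Equiv.Perm ((G ⧸ H) → ℂ) where
  toFun u := rho g u + α
  invFun u := rho g⁻¹ (u - α)
  left_inv u := by
    change rho g⁻¹ (rho g u + α - α) = u
    rw [add_sub_cancel_right, rho_inv_rho]
  right_inv u := by
    change rho g (rho g⁻¹ (u - α)) + α = u
    rw [rho_rho_inv, sub_add_cancel]

theorem aff_apply (g : G) (α u : (G ⧸ H) → ℂ) : aff g α u = rho g u + α := rfl

/-- the relation -/
def Psi (A B : G) : (((G ⧸ H) → ℂ) × ((G ⧸ H) → ℂ) × ((G ⧸ H) → ℂ)) →ₗ[ℂ] ((G ⧸ H) → ℂ) where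
  toFun p := p.2.1 - rho (A * A) p.2.1 + rho B p.1 - p.1 - rho A p.1
  map_add' p q := by
    simp only [Prod.fst_add, Prod.snd_add, map_add]
    abel
  map_smul' c p := by
    simp only [Prod.smul_fst, Prod.smul_snd, map_smul, RingHom.id_apply, smul_sub, smul_add]

theorem psi_surj [H.FiniteIndex] {A B : G} (hAB : B * A * B⁻¹ = A * A) :
    Function.Surjective (Psi (H := H) A B) := by
  classical
  have : Finite (G ⧸ H) := inferInstance
  rw [← LinearMap.range_eq_top]
  by_contra hne
  obtain ⟨f, hf0, hf⟩ := Submodule.exists_le_ker_of_lt_top _ (lt_top_iff_ne_top.2 hne)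
  have hf' : ∀ p, f (Psi (H := H) A B p) = 0 := fun p => hf ⟨p, rfl⟩
  have h1 : ∀ β, f (rho (A * A) β) = f β := by
    intro β
    have h := hf' (0, β, 0)
    simp only [Psi, LinearMap.coe_mk, AddHom.coe_mk, map_zero, add_zero, sub_zero, map_sub] at h
    exact (sub_eq_zero.1 h).symm
  have h2 : ∀ (k : ℕ) β, f (rho ((A * A) ^ k) β) = f β := by
    intro k
    induction k with
    | zero => intro β; rw [pow_zero, rho_one]
    | succ k ih => intro β; rw [pow_succ', rho_mul, h1, ih]
  -- the order of `A` on the cosets is odd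
  set P := MulAction.toPermHom G (G ⧸ H) with hP
  have hord : orderOf (P A * P A) = orderOf (P A) := by
    have h3 : P A * P A = P B * P A * (P B)⁻¹ := by
      rw [← map_mul, ← hAB, map_mul, map_mul, map_inv]
    have h4 : P B * P A * (P B)⁻¹ = MulAut.conj (P B) (P A) := rfl
    rw [h3, h4]
    exact orderOf_injective (MulAut.conj (P B)).toMonoidHom (MulAut.conj (P B)).injective (P A)
  have hpos : 0 < orderOf (P A) := orderOf_pos _
  have hodd : ∃ j, orderOf (P A) = 2 * j + 1 := by
    rcases Nat.even_or_odd' (orderOf (P A)) with ⟨j, hj | hj⟩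
    · exfalso
      have h5 : (P A * P A) ^ j = 1 := by
        rw [← pow_two, ← pow_mul, ← hj, pow_orderOf_eq_one]
      have h6 := Nat.le_of_dvd (by omega) (orderOf_dvd_of_pow_eq_one h5)
      omega
    · exact ⟨j, hj⟩
  obtain ⟨j, hj⟩ := hodd
  have hA : P A = P ((A * A) ^ (j + 1)) := by
    rw [map_pow, map_mul, ← pow_two, ← pow_mul]
    have h7 : 2 * (j + 1) = orderOf (P A) + 1 := by omega
    rw [h7, pow_succ, pow_orderOf_eq_one, one_mul]
  have h3 : ∀ α, f (rho A α) = f α := fun α => by rw [rho_congr hA, h2]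
  have h4 : ∀ α, f (rho B α) = 2 * f α := by
    intro α
    have h := hf' (α, 0, 0)
    simp only [Psi, LinearMap.coe_mk, AddHom.coe_mk, map_zero, sub_zero, zero_add, map_sub,
      h3] at h
    linear_combination h
  have h5 : ∀ (k : ℕ) α, f (rho (B ^ k) α) = 2 ^ k * f α := by
    intro k
    induction k with
    | zero => intro α; rw [pow_zero, rho_one, pow_zero, one_mul]
    | succ k ih => intro α; rw [pow_succ', rho_mul, h4, ih, pow_succ']; ring
  have hB : P (B ^ orderOf (P B)) = P 1 := by
    rw [map_pow, pow_orderOf_eq_one, map_one]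
  have hposB : orderOf (P B) ≠ 0 := (orderOf_pos _).ne'
  apply hf0
  refine LinearMap.ext fun α => ?_
  have h6 := h5 (orderOf (P B)) α
  rw [rho_congr hB, rho_one] at h6
  have h7 : (2 : ℂ) ^ orderOf (P B) ≠ 1 := by
    intro h8
    have h9 : (2 : ℕ) ^ orderOf (P B) = 1 := by exact_mod_cast h8
    rw [Nat.pow_eq_one] at h9
    omega
  have h8 : ((2 : ℂ) ^ orderOf (P B) - 1) * f α = 0 := by linear_combination -h6
  rcases mul_eq_zero.1 h8 with h9 | h9
  · exact absurd (sub_eq_zero.1 h9) h7
  · rw [h9]
    rfl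

/-- the values of a derivation at three elements -/
def Phi (A B Z : G) :
    Zp G H →ₗ[ℂ] (((G ⧸ H) → ℂ) × ((G ⧸ H) → ℂ) × ((G ⧸ H) → ℂ)) where
  toFun c := (c.1 A, c.1 B, c.1 Z)
  map_add' _ _ := rfl
  map_smul' _ _ := rfl

theorem phi_inj {A B Z : G} (hgen : Subgroup.closure ({Z, A, B} : Set G) = ⊤) :
    Function.Injective (Phi (H := H) A B Z) := by
  rw [injective_iff_map_eq_zero]
  intro c hc
  have hc' := mem_Zp.1 c.2
  have hA : c.1 A = 0 := congrArg Prod.fst hc
  have hB : c.1 B = 0 := congrArg (fun p => p.2.1) hc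
  have hZ : c.1 Z = 0 := congrArg (fun p => p.2.2) hc
  have h1 : c.1 1 = 0 := by
    have h := hc' 1 1
    rw [mul_one, rho_one] at h
    exact left_eq_add.1 h
  let K : Subgroup G :=
    { carrier := {g | c.1 g = 0}
      mul_mem' := by
        intro g h hg hh
        change c.1 (g * h) = 0
        rw [hc', show c.1 g = 0 from hg, show c.1 h = 0 from hh, map_zero, add_zero]
      one_mem' := h1
      inv_mem' := by
        intro g hg
        change c.1 g⁻¹ = 0
        have h := hc' g g⁻¹
        rw [mul_inv_cancel, h1, show c.1 g = 0 from hg, zero_add] at h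
        rw [← rho_inv_rho g (c.1 g⁻¹), ← h, map_zero] }
  have hK : K = ⊤ := by
    rw [eq_top_iff, ← hgen, Subgroup.closure_le]
    rintro g (rfl | rfl | rfl)
    · exact hZ
    · exact hA
    · exact hB
  refine Subtype.ext ?_
  funext g
  have hg : g ∈ K := by rw [hK]; trivial
  exact hg

end

theorem t_ZG (hW : S_WRU) : S_ZG := by
  intro B _ a b hcl hrel huniv H _
  classical
  have hfin : Finite (Wr B ⧸ H) := inferInstance
  have : Fintype (Wr B ⧸ H) := Fintype.ofFinite _
  set A : Wr B := SemidirectProduct.inr a with hA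
  set B' : Wr B := SemidirectProduct.inr b with hB'
  have hrel' : B' * A * B'⁻¹ = A * A := by
    rw [hA, hB', ← map_mul, ← map_inv, ← map_mul, hrel, map_mul]
  have hrel2 : B' * A = A * A * B' := by
    rw [← hrel']
    group
  have hgen : Subgroup.closure ({xx, A, B'} : Set (Wr B)) = ⊤ := by
    have h := Wr_closure {a, b} hcl
    rwa [Set.image_pair] at h
  have hrange : LinearMap.range (Phi (H := H) A B' xx) = LinearMap.ker (Psi (H := H) A B') := by
    ext ⟨α, β, γ⟩
    constructor
    · rintro ⟨c, hc⟩
      have hc' := mem_Zp.1 c.2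
      have hα : c.1 A = α := congrArg Prod.fst hc
      have hβ : c.1 B' = β := congrArg (fun p => p.2.1) hc
      rw [LinearMap.mem_ker]
      change β - rho (A * A) β + rho B' α - α - rho A α = 0
      have h1 := hc' B' A
      rw [hrel2, hc' (A * A) B', hc' A A, hα, hβ] at h1
      rw [sub_sub, sub_eq_zero]
      have h2 : β - rho (A * A) β + rho B' α = (β + rho B' α) - rho (A * A) β := by abel
      rw [h2, ← h1, add_sub_cancel_right]
    · intro hk
      rw [LinearMap.mem_ker] at hk
      change β - rho (A * A) β + rho B' α - α - rho A α = 0 at hk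
      have hyx : aff B' β * aff A α * (aff B' β)⁻¹ = aff (H := H) A α * aff A α := by
        rw [mul_inv_eq_iff_eq_mul]
        ext1 u
        rw [Equiv.Perm.mul_apply, Equiv.Perm.mul_apply, Equiv.Perm.mul_apply]
        simp only [aff_apply, map_add]
        rw [← rho_mul, ← rho_mul, ← rho_mul, ← rho_mul, hrel2, mul_assoc]
        have h3 : rho B' α + β = rho (A * A) β + rho A α + α := by
          have h4 : rho B' α + β - (rho (A * A) β + rho A α + α) =
            β - rho (A * A) β + rho B' α - α - rho A α := by abel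
          rw [← sub_eq_zero, h4, hk]
        rw [add_assoc, h3]
        abel
      obtain ⟨f, hfa, hfb⟩ := huniv _ (aff (H := H) A α) (aff B' β) hyx
      obtain ⟨h, hh, hhx⟩ := hW B _ f (aff (H := H) xx γ)
      have hhA : h A = aff A α := by rw [hA, hh, hfa]
      have hhB : h B' = aff B' β := by rw [hB', hh, hfb]
      let K : Subgroup (Wr B) :=
        { carrier := {g | ∀ u, h g u = rho g u + h g 0}
          mul_mem' := by
            intro g k hg hk u
            change h (g * k) u = rho (g * k) u + h (g * k) 0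
            rw [map_mul, Equiv.Perm.mul_apply, Equiv.Perm.mul_apply, hk u, hg, hg (h k 0), map_add,
              rho_mul, add_assoc]
          one_mem' := by
            intro u
            rw [map_one, rho_one]
            simp
          inv_mem' := by
            intro g hg u
            change h g⁻¹ u = rho g⁻¹ u + h g⁻¹ 0
            have h5 : ∀ u, h g (h g⁻¹ u) = u := by
              intro u
              rw [← Equiv.Perm.mul_apply, ← map_mul, mul_inv_cancel, map_one]
              rfl
            have h6 := h5 u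
            have h7 := h5 0
            rw [hg] at h6 h7
            have h8 : rho g (h g⁻¹ u) - rho g (h g⁻¹ 0) = u := by
              have : rho g (h g⁻¹ u) - rho g (h g⁻¹ 0) =
                (rho g (h g⁻¹ u) + h g 0) - (rho g (h g⁻¹ 0) + h g 0) := by abel
              rw [this, h6, h7, sub_zero]
            rw [← map_sub] at h8
            have h9 := congrArg (rho g⁻¹) h8
            rw [rho_inv_rho] at h9
            rw [← h9]
            abel }
      have hK : K = ⊤ := by
        rw [eq_top_iff, ← hgen, Subgroup.closure_le]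
        rintro g (rfl | rfl | rfl)
        · intro u
          rw [hhx, aff_apply, aff_apply, map_zero, zero_add]
        · intro u
          rw [hhA, aff_apply, aff_apply, map_zero, zero_add]
        · intro u
          rw [hhB, aff_apply, aff_apply, map_zero, zero_add]
      have hKg : ∀ (g : Wr B) u, h g u = rho g u + h g 0 := by
        intro g
        have hg : g ∈ K := by rw [hK]; trivial
        exact hg
      refine ⟨⟨fun g => h g 0, mem_Zp.2 fun g k => ?_⟩, ?_⟩
      · rw [map_mul, Equiv.Perm.mul_apply, hKg g (h k 0), add_comm]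
      · have e1 : h A 0 = α := by rw [hhA, aff_apply, map_zero, zero_add]
        have e2 : h B' 0 = β := by rw [hhB, aff_apply, map_zero, zero_add]
        have e3 : h xx 0 = γ := by rw [hhx, aff_apply, map_zero, zero_add]
        change (h A 0, h B' 0, h xx 0) = (α, β, γ)
        rw [e1, e2, e3]
  have h1 : Module.finrank ℂ (Zp (Wr B) H) =
      Module.finrank ℂ (LinearMap.ker (Psi (H := H) A B')) := by
    rw [← hrange]
    exact (LinearMap.finrank_range_of_inj (phi_inj hgen)).symm
  have h2 := LinearMap.finrank_range_add_finrank_ker (Psi (H := H) A B')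
  rw [LinearMap.range_eq_top.2 (psi_surj hrel'), finrank_top, Module.finrank_prod,
    Module.finrank_prod, Module.finrank_fintype_fun_eq_card] at h2
  have h3 : Fintype.card (Wr B ⧸ H) = H.index := by
    rw [← Nat.card_eq_fintype_card]
    rfl
  rw [h1]
  omega

end Pool.Agent.R209.VG
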